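import Mathlib
import Pool.Agent.Q248.DP.Pair
import Pool.Agent.Q248.DP.Cheb

/-!
# Prime pairs with an even difference `d ≤ (log x) ^ 2` in one colour

Let the primes up to `x` be coloured with `r ≤ (log x) / 3` colours, in an arbitrary way. The number of the primes `p ≤ x` for
which `p - d` is a prime of the same colour should be about `1 / r` of the number `π₂(x, d)` if the colours were independent,
for many `d` not fewer: for at least `κ (ε / r) ^ (1 + δ) (log x) ^ 2` even `d ≤ (log x) ^ 2` it is at least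
`(1 - ε) / r · 𝔖(d) x / (log x) ^ 2`, uniformly for `ε ≥ 3 r / log x`. The same holds inside an arbitrary (sparse) set of
primes.

Proof.  Convexity for the numbers of the primes of the different colours in short intervals, the average and the moments of the
singular series (starting library `TH891.SG`), and the uniform upper bound of the sieve (`W218.TX.pi_upper`).
-/

set_option autoImplicit false

namespace Pool.Agent.Results.MP_678834_nt.ColouredPrimes

open Finset Filter Topology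

/-- The twin prime constant `C₂`. -/
noncomputable def C2 : ℝ := ∏' p : {p : ℕ // p.Prime ∧ 2 < p}, (1 - 1 / (((p.1 : ℕ) : ℝ) - 1) ^ 2)

/-- `𝔖(d) = 2 C₂ ∏_{p ∣ d, p ≥ 3} (p - 1) / (p - 2)`, used for even `d`. -/
noncomputable def S (d : ℕ) : ℝ :=
  2 * C2 * ∏ p ∈ d.primeFactors.filter (fun p : ℕ => 2 < p), (((p : ℝ) - 1) / ((p : ℝ) - 2))

/-- the number of the primes `p ≤ x` for which `p - d` is a prime of the same colour -/
noncomputable def pi2 (col : ℕ → ℕ) (x : ℝ) (d : ℕ) : ℕ :=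
  ((Icc 1 ⌊x⌋₊).filter (fun p : ℕ => p.Prime ∧ (p - d).Prime ∧ col p = col (p - d))).card

/-- the number of the elements `p` of `P` for which `p - d` is an element of `P` of the same colour -/
def count (P : Finset ℕ) (col : ℕ → ℕ) (d : ℕ) : ℕ := (P.filter (fun p => p - d ∈ P ∧ col p = col (p - d))).card

/-- `P` consists of primes up to `x` with colours `0, …, r - 1` -/
def Coloured (x : ℝ) (P : Finset ℕ) (col : ℕ → ℕ) (r : ℕ) : Prop := ∀ p ∈ P, p.Prime ∧ (p : ℝ) ≤ x ∧ col p < r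

open Classical in
/-- **Prime pairs in one colour.** -/
theorem result (δ : ℝ) (hδ : 0 < δ) :
    -- the differences `d ≤ (log x) ^ 2` of the question, all primes
    (∃ κ : ℝ, 0 < κ ∧ ∀ᶠ x : ℝ in atTop, ∀ (r : ℕ) (col : ℕ → ℕ), (∀ p : ℕ, p.Prime → (p : ℝ) ≤ x → col p < r) →
      ∀ ε : ℝ, 3 * r ≤ ε * Real.log x → ε ≤ 1 →
        κ * (ε / r) ^ (1 + δ) * Real.log x ^ 2 ≤
          (((Icc 2 ⌊Real.log x ^ 2⌋₊).filter (fun d : ℕ => Even d ∧
            (1 - ε) / r * (S d * x / Real.log x ^ 2) ≤ pi2 col x d)).card : ℝ)) ∧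
    -- arbitrary sets of primes, all windows with on average more than one element in each colour
    ∃ κ K : ℝ, 0 < κ ∧ 1 ≤ K ∧ ∀ C : ℝ, ∀ᶠ x : ℝ in atTop, ∀ H : ℕ, (H : ℝ) ≤ Real.log x ^ C →
      ∀ (P : Finset ℕ) (r : ℕ) (col : ℕ → ℕ), P.Nonempty → Coloured x P col r →
        ∀ θ ε : ℝ, 0 ≤ θ → K ≤ ε * (H : ℝ) ^ (3 / 4 : ℝ) → θ + ε ≤ 1 - r * x / (P.card * H) →
          κ * (ε * ((P.card * Real.log x / x) ^ 2 / r)) ^ (1 + δ) * (H : ℝ) ≤
            (((Icc 2 H).filter (fun d : ℕ => Even d ∧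
              θ * (P.card ^ 2 / (r * x)) * S d ≤ count P col d)).card : ℝ) := by
  obtain ⟨n, hn0, hnδ⟩ : ∃ n : ℕ, 1 ≤ n ∧ 1 / (n : ℝ) ≤ δ := by
    obtain ⟨n, hn⟩ := exists_nat_gt (1 / δ)
    have hpos : 0 < 1 / δ := by positivity
    have hn0 : (0:ℝ) < n := hpos.trans hn
    refine ⟨n, by exact_mod_cast hn0, ?_⟩
    rw [div_le_iff₀ hn0]
    rw [div_lt_iff₀ hδ] at hn
    linarith
  obtain ⟨κ, K, hκ, hK, h⟩ := Pool.Agent.Q248.DP.pairs n hn0
  have hS : ∀ d : ℕ, S d = Pool.Agent.TH891.SG.SP d := fun d => rfl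
  have h4 : (0:ℝ) < 4 ^ δ := by positivity
  have general : ∀ C : ℝ, ∀ᶠ x : ℝ in atTop, ∀ H : ℕ, (H : ℝ) ≤ Real.log x ^ C →
      ∀ (P : Finset ℕ) (r : ℕ) (col : ℕ → ℕ), P.Nonempty → Coloured x P col r →
        ∀ θ ε : ℝ, 0 ≤ θ → K ≤ ε * (H : ℝ) ^ (3 / 4 : ℝ) → θ + ε ≤ 1 - r * x / (P.card * H) →
          (κ * (4 ^ δ)⁻¹) * (ε * ((P.card * Real.log x / x) ^ 2 / r)) ^ (1 + δ) * (H : ℝ) ≤
            (((Icc 2 H).filter (fun d : ℕ => Even d ∧
              θ * (P.card ^ 2 / (r * x)) * S d ≤ count P col d)).card : ℝ) := by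
    intro C
    filter_upwards [h C, Pool.Agent.Q248.DP.alpha_le, eventually_ge_atTop (3:ℝ)] with x h1 h2 h3
    intro H hH P r col hPne hP θ ε hθ hε hθε
    have hx0 : 0 < x := by linarith
    have hlx : 0 < Real.log x := Real.log_pos (by linarith)
    have hP0 : (0:ℝ) < P.card := by exact_mod_cast hPne.card_pos
    have hr1 : 1 ≤ r := by
      obtain ⟨s, hs⟩ := hPne
      have := (hP s hs).2.2
      omega
    have hr0 : (1:ℝ) ≤ r := by exact_mod_cast hr1
    have hε0 : 0 ≤ ε := by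
      by_contra hcon
      have h5 : ε * (H:ℝ) ^ (3 / 4 : ℝ) ≤ 0 :=
        mul_nonpos_of_nonpos_of_nonneg (not_le.1 hcon).le (by positivity)
      linarith
    have hε1 : ε ≤ 1 := by
      have : 0 ≤ r * x / (P.card * H) := by positivity
      linarith
    have k1 := h1 H hH P (fun p hp => ⟨(hP p hp).1, (hP p hp).2.1⟩) r col (fun p hp => (hP p hp).2.2) hPne θ ε hθ hε hθε
    have hα2 := h2 P (fun p hp => ⟨(hP p hp).1, (hP p hp).2.1⟩)
    set a : ℝ := P.card * Real.log x / x with ha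
    have ha0 : 0 ≤ a := by positivity
    have hb0 : 0 ≤ ε * (a ^ 2 / r) := by positivity
    have hb4 : ε * (a ^ 2 / r) ≤ 4 := by
      have i1 : a ^ 2 ≤ 2 ^ 2 := pow_le_pow_left₀ ha0 hα2 2
      have i2 : a ^ 2 / r ≤ 4 := by
        rw [div_le_iff₀ (by linarith)]
        nlinarith
      have i3 : 0 ≤ a ^ 2 / r := by positivity
      nlinarith
    have k2 := Pool.Agent.Q248.DP.exponent hn0 hb0 hb4 (by norm_num) hnδ
    refine le_trans ?_ k1
    apply mul_le_mul_of_nonneg_right _ (by positivity)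
    rw [mul_assoc]
    exact mul_le_mul_of_nonneg_left k2 hκ.le
  refine ⟨?_, κ * (4 ^ δ)⁻¹, K, by positivity, hK, general⟩
  refine ⟨(κ * (4 ^ δ)⁻¹) * (1 / 2) ^ (1 + δ) * (6 / 7), by positivity, ?_⟩
  have tL : Tendsto (fun x : ℝ => Real.log x) atTop atTop := Real.tendsto_log_atTop
  have hpnt := Pool.Agent.TH891.SG.pi_low (η := 1 / 2) (by norm_num)
  filter_upwards [general 2, eventually_ge_atTop (3:ℝ), tL.eventually_ge_atTop (max 7 ((2 * K) ^ 2)),
    Pool.Agent.Q248.DP.real_to_nat 1 hpnt] with x h1 h3 h4 h5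
  obtain ⟨h6, h7, _, hNx, _, hlogd⟩ := h5
  intro r col hcol ε hε hε1
  set N : ℕ := ⌊x⌋₊ with hN
  have hx0 : 0 < x := by linarith
  set L := Real.log x with hL
  have hL7 : 7 ≤ L := (le_max_left _ _).trans h4
  have hLK : (2 * K) ^ 2 ≤ L := (le_max_right _ _).trans h4
  have hL0 : 0 < L := by linarith
  -- all primes
  set P : Finset ℕ := (Icc 1 N).filter (fun p : ℕ => p.Prime) with hP
  have hPmem : ∀ p, p ∈ P ↔ p.Prime ∧ (p:ℝ) ≤ x := by
    intro p
    rw [hP, mem_filter, mem_Icc]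
    constructor
    · rintro ⟨⟨_, h⟩, hp⟩
      exact ⟨hp, (Nat.cast_le.2 h).trans hNx⟩
    · rintro ⟨hp, h⟩
      exact ⟨⟨hp.one_lt.le, Nat.le_floor h⟩, hp⟩
  have hPcard : x / L ≤ P.card := by
    refine le_trans ?_ h6
    have hLN : Real.log (N:ℝ) ≤ L := Real.log_le_log (by linarith) hNx
    have hLN1 : 1 ≤ Real.log (N:ℝ) := by
      rw [Real.le_log_iff_exp_le (by linarith)]
      have := Real.exp_one_lt_d9
      linarith
    have hN0 : (0:ℝ) < N := by linarith
    have hxN : x ≤ N + 1 := (Nat.lt_floor_add_one x).le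
    have hNl : 2 * Real.log (N:ℝ) ≤ N := by
      have h8 := Real.log_le_sub_one_of_pos (show (0:ℝ) < Real.sqrt N by positivity)
      rw [Real.log_sqrt hN0.le] at h8
      have h9 : Real.sqrt N * Real.sqrt N = N := Real.mul_self_sqrt hN0.le
      nlinarith [sq_nonneg (Real.sqrt (N:ℝ) - 2)]
    have i1 : x / L ≤ (N + 1) / Real.log N := by
      apply div_le_div₀ (by linarith) hxN (by linarith)
      exact hLN
    refine i1.trans ?_
    have e1 : (N:ℝ) / Real.log N * (1 + (1 - 1 / 2) / Real.log N) =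
        (N + (N:ℝ) / (2 * Real.log N)) / Real.log N := by
      field_simp
      ring
    rw [e1]
    apply div_le_div_of_nonneg_right _ (by linarith)
    have : 1 ≤ (N:ℝ) / (2 * Real.log N) := by
      rw [le_div_iff₀ (by linarith)]
      linarith
    linarith
  have hP0 : (0:ℝ) < P.card := lt_of_lt_of_le (by positivity) hPcard
  have hPne : P.Nonempty := card_pos.1 (by exact_mod_cast hP0)
  have hr1 : 1 ≤ r := by
    obtain ⟨s, hs⟩ := hPne
    have := hcol s ((hPmem s).1 hs).1 ((hPmem s).1 hs).2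
    omega
  have hr0 : (1:ℝ) ≤ r := by exact_mod_cast hr1
  have hε0 : 0 < ε := by
    by_contra hcon
    have : ε * L ≤ 0 := mul_nonpos_of_nonpos_of_nonneg (not_lt.1 hcon) (by positivity)
    linarith
  -- the window
  set H := ⌊L ^ 2⌋₊ with hH
  have hH1 : (H:ℝ) ≤ L ^ 2 := Nat.floor_le (by positivity)
  have hH2 : 6 / 7 * L ^ 2 ≤ H := by
    have : L ^ 2 - 1 < H := Nat.sub_one_lt_floor _
    nlinarith
  have hHpos : (0:ℝ) < H := lt_of_lt_of_le (by positivity) hH2
  have hHr : (H:ℝ) ≤ L ^ (2:ℝ) := by rw [Real.rpow_two]; exact hH1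
  have hu : r * x / (P.card * H) ≤ ε / 2 := by
    rw [div_le_iff₀ (by positivity)]
    have i1 : 6 / 7 * (x * L) ≤ P.card * H := by
      calc 6 / 7 * (x * L) = (x / L) * (6 / 7 * L ^ 2) := by field_simp
        _ ≤ _ := mul_le_mul hPcard hH2 (by positivity) (by positivity)
    have i2 : ε / 2 * (6 / 7 * (x * L)) ≤ ε / 2 * (P.card * H) := mul_le_mul_of_nonneg_left i1 (by positivity)
    have i3 : ε / 2 * (6 / 7 * (x * L)) = 3 / 7 * x * (ε * L) := by ring
    have i4 : 3 / 7 * x * (3 * r) ≤ 3 / 7 * x * (ε * L) := mul_le_mul_of_nonneg_left hε (by positivity)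
    have i5 : r * x ≤ 3 / 7 * x * (3 * r) := by
      have : 0 ≤ r * x := by positivity
      linarith
    linarith
  have hεL : 3 / L ≤ ε := by
    rw [div_le_iff₀ hL0]
    linarith
  have hKε : K ≤ ε / 2 * (H : ℝ) ^ (3 / 4 : ℝ) := by
    have i1 : (L ^ 2 / 2) ^ (3 / 4 : ℝ) ≤ (H:ℝ) ^ (3 / 4 : ℝ) := by
      apply Real.rpow_le_rpow (by positivity) _ (by norm_num)
      nlinarith [sq_nonneg L]
    have i2 : L * Real.sqrt L / 2 ≤ (L ^ 2 / 2) ^ (3 / 4 : ℝ) := by
      rw [Real.div_rpow (by positivity) (by norm_num)]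
      have e1 : (L ^ 2) ^ (3 / 4 : ℝ) = L * Real.sqrt L := by
        rw [← Real.rpow_natCast, ← Real.rpow_mul hL0.le, Real.sqrt_eq_rpow]
        nth_rewrite 2 [← Real.rpow_one L]
        rw [← Real.rpow_add hL0]
        norm_num
      rw [e1]
      apply div_le_div_of_nonneg_left (by positivity) (by positivity)
      calc (2:ℝ) ^ (3 / 4 : ℝ) ≤ 2 ^ (1:ℝ) := Real.rpow_le_rpow_of_exponent_le (by norm_num) (by norm_num)
        _ = 2 := Real.rpow_one _
    have i3 : 2 * K ≤ Real.sqrt L := Real.le_sqrt_of_sq_le hLK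
    calc K ≤ 3 / L / 2 * (L * Real.sqrt L / 2) := by
          have e1 : 3 / L / 2 * (L * Real.sqrt L / 2) = 3 / 4 * Real.sqrt L := by
            field_simp
            ring
          rw [e1]
          linarith
      _ ≤ ε / 2 * (H : ℝ) ^ (3 / 4 : ℝ) := by
          apply mul_le_mul _ (i2.trans i1) (by positivity) (by positivity)
          linarith
  have k := h1 H hHr P r col hPne
    (fun p hp => ⟨((hPmem p).1 hp).1, ((hPmem p).1 hp).2, hcol p ((hPmem p).1 hp).1 ((hPmem p).1 hp).2⟩)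
    (1 - ε) (ε / 2) (by linarith) hKε (by linarith)
  -- the count
  have hcnt : ∀ d, count P col d = pi2 col x d := by
    intro d
    unfold count pi2
    congr 1
    ext p
    rw [mem_filter, hPmem, hPmem, mem_filter, ← hN, mem_Icc]
    constructor
    · rintro ⟨⟨a1, a2⟩, ⟨a3, a4⟩, a5⟩
      exact ⟨⟨a1.one_lt.le, Nat.le_floor a2⟩, a1, a3, a5⟩
    · rintro ⟨⟨_, a2⟩, a3, a4, a5⟩
      have a6 : (p:ℝ) ≤ x := (Nat.cast_le.2 a2).trans hNx
      exact ⟨⟨a3, a6⟩, ⟨a4, le_trans (Nat.cast_le.2 (Nat.sub_le p d)) a6⟩, a5⟩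
  have hsub : ((Icc 2 H).filter (fun d : ℕ => Even d ∧
      (1 - ε) * (P.card ^ 2 / (r * x)) * S d ≤ count P col d)).card ≤
      ((Icc 2 H).filter (fun d : ℕ => Even d ∧ (1 - ε) / r * (S d * x / L ^ 2) ≤ pi2 col x d)).card := by
    apply card_le_card
    intro d hd
    rw [mem_filter] at hd ⊢
    obtain ⟨hd1, hd2, hd3⟩ := hd
    refine ⟨hd1, hd2, ?_⟩
    rw [hcnt] at hd3
    refine le_trans ?_ hd3
    have hS0 : 0 ≤ S d := by
      rw [hS, ← Pool.Agent.TH891.SG.CT_pair (mem_Icc.1 hd1).1 hd2]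
      exact Pool.Agent.H387R2.Uni.CT_nonneg _
    have i1 : x / (r * L ^ 2) ≤ P.card ^ 2 / (r * x) := by
      rw [div_le_div_iff₀ (by positivity) (by positivity)]
      have i2 : x ≤ P.card * L := by
        rw [div_le_iff₀ hL0] at hPcard; exact hPcard
      have i3 : x ^ 2 ≤ (P.card * L) ^ 2 := pow_le_pow_left₀ hx0.le i2 2
      calc x * (r * x) = r * x ^ 2 := by ring
        _ ≤ r * (P.card * L) ^ 2 := mul_le_mul_of_nonneg_left i3 (by linarith)
        _ = _ := by ring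
    calc (1 - ε) / r * (S d * x / L ^ 2) = ((1 - ε) * S d) * (x / (r * L ^ 2)) := by
          field_simp
      _ ≤ ((1 - ε) * S d) * (P.card ^ 2 / (r * x)) :=
          mul_le_mul_of_nonneg_left i1 (mul_nonneg (by linarith) hS0)
      _ = _ := by ring
  refine le_trans (le_trans ?_ k) (by exact_mod_cast hsub)
  have hα1 : 1 ≤ (P.card : ℝ) * L / x := by
    rw [div_le_iff₀ hL0] at hPcard
    rw [le_div_iff₀ hx0, one_mul]
    exact hPcard
  have e1 : (ε / r) ^ (1 + δ) * (1 / 2) ^ (1 + δ) ≤ (ε / 2 * ((P.card * L / x) ^ 2 / r)) ^ (1 + δ) := by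
    rw [← Real.mul_rpow (by positivity) (by norm_num)]
    apply Real.rpow_le_rpow (by positivity)
    · have i1 : 1 ≤ ((P.card : ℝ) * L / x) ^ 2 := one_le_pow₀ hα1
      calc ε / r * (1 / 2) = ε / 2 * (1 / r) := by ring
        _ ≤ _ := by
            apply mul_le_mul_of_nonneg_left _ (by positivity)
            exact div_le_div_of_nonneg_right i1 (by linarith)
    · positivity
  calc κ * (4 ^ δ)⁻¹ * (1 / 2) ^ (1 + δ) * (6 / 7) * (ε / r) ^ (1 + δ) * L ^ 2
      = κ * (4 ^ δ)⁻¹ * ((ε / r) ^ (1 + δ) * (1 / 2) ^ (1 + δ)) * (6 / 7 * L ^ 2) := by ring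
    _ ≤ κ * (4 ^ δ)⁻¹ * ((ε / 2 * ((P.card * L / x) ^ 2 / r)) ^ (1 + δ)) * (H : ℝ) := by
        apply mul_le_mul _ hH2 (by positivity) (by positivity)
        apply mul_le_mul_of_nonneg_left e1 (by positivity)

end Pool.Agent.Results.MP_678834_nt.ColouredPrimes
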