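import Pool.Agent.Q46.SL.Tools
import Pool.Agent.Q46.SL.Pseudo

/-!
# Almost prime pairs `x, x - η`, uniformly in the difference, and pseudorandom sequences

We look for `x` such that `x` and `x - η` have at most `R` prime factors, all larger than `N ^ κ`, uniformly in the difference `η` (of absolute
value at most `N ^ B`).

Let `a 0, ..., a (N - 1)` be ANY signs whose correlations of order at most `2k` save a power of `N`, `2 ^ k ≤ N ^ (δ / 8)`. Every pattern
of `k` signs with arbitrary distinct shifts occurs in the sequence at many places `x` with the property, at least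
`cc (N / 2 ^ k) / (log N) ^ (m + 2)`. Here the property is: `x` and `x - η` have at most `R` prime factors, all larger than `N ^ κ`.

In addition the numbers avoid arbitrary residue classes, at most `m` classes `E q` modulo each prime `q ≤ z`, as long as there is no
local obstruction; `m = 0` is the case without classes. The exponent `κ`, the number `R` and the constant `cc` do not depend on the
classes.

Design and proof: helper46 (modules `Pool.Agent.Q46.SV.*`, `Pool.Agent.Q46.SL.*`): the vectors of the residues in question are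
equidistributed modulo all small integers with a power saving, by bounds for exponential sums; the fundamental lemma of the
sieve is applied to the vectors.
-/

set_option autoImplicit false

namespace Pool.Agent.Results.MP_678834_nt.PseudorandomSequences

open Finset Polynomial
open Pool.Agent.Q46.SL hiding Almost

/-- `n` is not zero and has at most `R` prime factors (counted with multiplicity), all larger than `z` -/
def Almost (z : ℝ) (R : ℕ) (n : ℤ) : Prop :=
  n ≠ 0 ∧ n.natAbs.primeFactorsList.length ≤ R ∧ ∀ q : ℕ, q.Prime → (q : ℤ) ∣ n → z < q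

/-- `x` is positive, `x`, `x - η` have at most `R` prime factors, all larger than `z`, and `x` avoids the classes `E q`, `q ≤ z` -/
def Good (η : ℤ) (z : ℝ) (R : ℕ) (E : ℕ → Finset ℕ) (x : ℤ) : Prop :=
  0 < x ∧ Almost z R (x) ∧ Almost z R (x - η) ∧ ∀ q : ℕ, q.Prime → (q : ℝ) ≤ z → (x % q).toNat ∉ E q

/-- `E q` has at most `m` elements, and some residue `a` outside `E q` has `q ∤ a`, `q ∤ a - η` -/
def Adm (η : ℤ) (m : ℕ) (E : ℕ → Finset ℕ) : Prop :=
  ∀ q : ℕ, q.Prime → (E q).card ≤ m ∧ ∃ a < q, a ∉ E q ∧ ¬ (q : ℤ) ∣ a ∧ ¬ (q : ℤ) ∣ a - η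

/-- the polynomials and the classes -/
noncomputable def sysE (η : ℤ) (m : ℕ) (E : ℕ → Finset ℕ) (hE : Adm η m E) : PE 2 m 2 where
  f := ![X, X - C η]
  E := E
  deg := by
    rw [Fin.sum_univ_two]
    simp only [Matrix.cons_val]
    have d0 : (X : ℤ[X]).natDegree ≤ 1 := by compute_degree
    have d1 : (X - C η : ℤ[X]).natDegree ≤ 1 := by compute_degree
    omega
  adm := by
    intro q hq
    obtain ⟨h1, a, ha, haE, h2, h3⟩ := hE q hq
    refine ⟨h1, a, ha, haE, fun j => ?_⟩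
    fin_cases j
    · simpa using h2
    · simpa using h3

lemma good_of {η : ℤ} {m B : ℕ} {E : ℕ → Finset ℕ} (hE : Adm η m E) {κ M : ℝ} (hM : (2 : ℝ) ≤ M)
    (hh : |(η : ℝ)| ≤ M ^ B) {x : ℤ} (h : Near (B + 1) (sysE η m E hE) κ M x) (hx : (x : ℝ) ≤ M) :
    Good η (M ^ κ) ⌊((B + 1 : ℕ) + (2 : ℕ) + 1 : ℝ) / κ⌋₊ E x := by
  obtain ⟨h0, h12⟩ := h
  obtain ⟨h1, h2⟩ := h12 (by
    intro j
    have hB : (1 : ℝ) ≤ M ^ B := one_le_pow₀ (by linarith)
    have hBM : (2 : ℝ) * M ^ B ≤ M ^ (B + 1) := by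
      rw [pow_succ]
      nlinarith
    have k0 := hh
    fin_cases j
    · refine cb_mono (cb_X) ?_
      push_cast
      norm_num
      linarith
    · refine cb_mono (cb_sub (cb_X) (cb_C η)) ?_
      push_cast
      norm_num
      linarith) hx
  refine ⟨h0, ?_, ?_, h2⟩
  · simpa [sysE, Almost, Pool.Agent.Q46.SL.Almost] using h1 0
  · simpa [sysE, Almost, Pool.Agent.Q46.SL.Almost] using h1 1

/-- all the correlations of order at most `l` of the signs `a 0, ..., a (N - 1)` are at most `C` in absolute value: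
`|∑_{n < M} ∏_{d ∈ D} a (n + d)| ≤ C` whenever `1 ≤ |D| ≤ l` and `M + d ≤ N` for all `d ∈ D` -/
def CorrelationsLe (N l : ℕ) (a : ℕ → ℤ) (C : ℝ) : Prop :=
  ∀ D : Finset ℕ, D.Nonempty → D.card ≤ l → ∀ M : ℕ, (∀ d ∈ D, M + d ≤ N) →
    |((∑ n ∈ range M, ∏ d ∈ D, a (n + d) : ℤ) : ℝ)| ≤ C

/-- Almost prime pairs with uniform difference at the places where a given pattern occurs in a pseudorandom sequence. -/
theorem result (B m : ℕ) (δ : ℝ) (hδ : 0 < δ) (hδ1 : δ ≤ 1) :
    ∃ κ : ℝ, 0 < κ ∧ ∃ cc : ℝ, 0 < cc ∧ ∃ R N₀ : ℕ, ∀ N : ℕ, N₀ ≤ N → ∀ η : ℤ, |(η : ℝ)| ≤ (N : ℝ) ^ B → ∀ E : ℕ → Finset ℕ, Adm η m E → 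
      ∀ k : ℕ, (2 : ℝ) ^ k ≤ (N : ℝ) ^ (δ / 8) → ∀ a : ℕ → ℤ, (∀ n < N, a n = 1 ∨ a n = -1) →
      CorrelationsLe N (2 * k) a ((N : ℝ) ^ (1 - δ)) →
      ∀ d : Fin k → ℕ, Function.Injective d → (∀ i, 2 * d i ≤ N) → ∀ s : Fin k → ℤ, (∀ i, s i = 1 ∨ s i = -1) →
        ∃ G ⊆ range (N / 2), cc * ((N : ℝ) / 2 ^ k) / Real.log N ^ (1 * (m + 2)) ≤ G.card ∧
          ∀ x ∈ G, (∀ i, a (x + d i) = s i) ∧ Good η ((N : ℝ) ^ κ) R E x := by
  classical
  obtain ⟨κ, hκ, cc, hcc, N₀, h⟩ := Pool.Agent.Q46.SL.pseudo (Near (B + 1) : PE 2 m 2 → ℝ → ℝ → ℤ → Prop)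
    (lg (m + 2)) (fun r _ => csN 2 m 2 (B + 1) r) δ hδ hδ1
  refine ⟨κ, hκ, cc, hcc, ⌊((B + 1 : ℕ) + (2 : ℕ) + 1 : ℝ) / κ⌋₊, max 2 N₀, ?_⟩
  intro N hN η t0 E hE k hk a ha hC d hd hdN s hs
  have hpr : (2 : ℝ) ≤ N := by exact_mod_cast (le_max_left _ _).trans hN
  have key := h N ((le_max_right _ _).trans hN) (sysE η m E hE) k hk a ha hC d hd hdN s hs
  refine ⟨(Pool.Agent.Q46.MH.pat a d s (N / 2)).filter (fun n : ℕ => Near (B + 1) (sysE η m E hE) κ N (n : ℤ)), ?_,
    le_trans (cnt le_rfl (by positivity) (log0 N) _ _) key, ?_⟩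
  · intro x hx
    rw [mem_filter] at hx
    unfold Pool.Agent.Q46.MH.pat at hx
    rw [mem_filter] at hx
    exact hx.1.1
  · intro x hx
    rw [mem_filter] at hx
    unfold Pool.Agent.Q46.MH.pat at hx
    rw [mem_filter, mem_range] at hx
    refine ⟨hx.1.2, good_of hE hpr t0 hx.2 ?_⟩
    exact_mod_cast (by omega : x ≤ N)

end Pool.Agent.Results.MP_678834_nt.PseudorandomSequences
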