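import Pool.Agent.Q25.UReg2

/-!
# Regular points of arbitrary sets of prime pairs, uniformly in the difference

For every even `d` with `1 ≤ d ≤ X ^ E` (the problem has `d ≤ (log X) ^ 2`) and EVERY set `A` of integers `m` such that
neither `m` nor `m + d` has a prime factor `≤ X ^ (1 / r)` (for instance the prime pairs `m`, `m + d`), almost all
elements of `A` in every interval `(u, u + Y]`, `X ^ θ ≤ Y ≤ X`, `Y ≤ u`, are regular points of `A`, measured with the
expected number `Y V(d)` of all such integers, where `V(d)` contains the singular series `𝔖(d)`.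
-/

set_option autoImplicit false

namespace Pool.Agent.Results.MP_678834_nt.RegularPoints

open Finset
open Pool.Agent.Q25.UReg (N RightOrder ConstantDensity badScales Irregular GoodT VT)

/-- neither `m` nor `m + d` has a prime factor `≤ X ^ (1 / r)` -/
def Good (d r X m : ℕ) : Prop :=
  ∀ p : ℕ, p.Prime → (p : ℝ) ≤ (X : ℝ) ^ (1 / (r : ℝ)) → ¬ p ∣ m ∧ ¬ p ∣ m + d

/-- the product over the primes `p ≤ X ^ (1 / r)` of `1 - 1 / p` if `p` divides `d` and of `1 - 2 / p` otherwise -/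
noncomputable def V (d r X : ℕ) : ℝ :=
  ∏ p ∈ (Icc 1 ⌊(X : ℝ) ^ (1 / (r : ℝ))⌋₊).filter Nat.Prime, (1 - (if p ∣ d then (1 : ℝ) else 2) / p)

lemma card_pair_mod (d p : ℕ) : ((({0, d} : Finset ℕ).image (fun h => h % p)).card : ℝ) = if p ∣ d then (1 : ℝ) else 2 := by
  rw [image_insert, image_singleton, Nat.zero_mod]
  split_ifs with h
  · rw [Nat.mod_eq_zero_of_dvd h]
    simp
  · rw [card_pair]
    · norm_num
    · intro h1
      exact h (Nat.dvd_of_mod_eq_zero h1.symm)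

/-- **Regular points of arbitrary sets of prime pairs, uniformly in the difference.** -/
theorem result (E θ : ℝ) (hE : 0 < E) (hθ : 0 < θ) :
    ∃ r₀ : ℕ, 2 ≤ r₀ ∧ ∀ r : ℕ, r₀ ≤ r → ∀ ε : ℝ, 0 < ε → ∃ c : ℝ, 0 < c ∧ ∀ δ : ℝ, 0 < δ → ∃ B X₀ : ℕ,
      ∀ X : ℕ, X₀ ≤ X → ∀ d : ℕ, Even d → 1 ≤ d → (d : ℝ) ≤ (X : ℝ) ^ E →
        ∀ u Y : ℕ, (X : ℝ) ^ θ ≤ Y → Y ≤ X → Y ≤ u → ∀ A : Set ℕ, (∀ m ∈ A, Good d r X m) →
          (N (Irregular A (V d r X) c δ B Y) u (u + Y) : ℝ) ≤ ε * (Y * V d r X) := by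
  obtain ⟨r₀, hr₀, h⟩ := Pool.Agent.Q25.UReg.tuple_reg 2 le_rfl E θ hE hθ
  refine ⟨r₀, hr₀, fun r hr ε hε => ?_⟩
  obtain ⟨c, hc, h1⟩ := h r hr ε hε
  refine ⟨c, hc, fun δ hδ => ?_⟩
  obtain ⟨B, hB⟩ := h1 δ hδ
  obtain ⟨X₀, hX₀⟩ := Filter.eventually_atTop.1 hB
  refine ⟨B, X₀, fun X hX d hd hd1 hdE u Y hXY hYX hYu A hA => ?_⟩
  have hV : VT {0, d} r X = V d r X := by
    unfold VT V
    refine prod_congr rfl (fun p _ => ?_)
    rw [card_pair_mod]
  rw [← hV]
  refine hX₀ X hX {0, d} (card_pair (by omega)) ?_ ?_ u Y hXY hYX hYu A ?_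
  · intro h hh
    rw [mem_insert, mem_singleton] at hh
    rcases hh with rfl | rfl
    · push_cast
      positivity
    · exact hdE
  · intro p hp
    have h2 := card_pair_mod d p
    split_ifs at h2 with h3
    · have h4 : (({0, d} : Finset ℕ).image (fun h => h % p)).card = 1 := by exact_mod_cast h2
      rw [h4]
      exact hp.one_lt
    · have h4 : (({0, d} : Finset ℕ).image (fun h => h % p)).card = 2 := by exact_mod_cast h2
      rw [h4]
      rcases hp.two_le.lt_or_eq with h5 | h5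
      · exact h5
      · exact absurd (h5 ▸ hd.two_dvd) h3
  · intro m hm p hp hpX h hh
    rw [mem_insert, mem_singleton] at hh
    rcases hh with rfl | rfl
    · exact (hA m hm p hp hpX).1
    · exact (hA m hm p hp hpX).2

end Pool.Agent.Results.MP_678834_nt.RegularPoints
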